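import Pool.Agent.H433.CP.Stm

/-!
CP-D1: the divisor bound for ideals of a number field (helper80, for helper433).
-/

set_option autoImplicit false

open NumberField Finset

namespace Pool.Agent.H80.CP

open Pool.Agent.H433.CP

/-- the number of divisors -/
theorem card_div {K : Type} [Field K] [NumberField K] (J : Ideal (𝓞 K)) (hJ : J ≠ ⊥)
    (S : Finset (Ideal (𝓞 K))) (hS : ∀ I ∈ S, I ∣ J) [DecidableEq (Ideal (𝓞 K))] :
    S.card ≤ ∏ p ∈ (UniqueFactorizationMonoid.normalizedFactors J).toFinset,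
      ((UniqueFactorizationMonoid.normalizedFactors J).count p + 1) := by
  set s := UniqueFactorizationMonoid.normalizedFactors J with hs
  have hne : ∀ I ∈ S, I ≠ ⊥ := by
    intro I hI h0
    apply hJ
    have h1 := hS I hI
    rw [h0] at h1
    exact zero_dvd_iff.1 h1
  have hle : ∀ I ∈ S, UniqueFactorizationMonoid.normalizedFactors I ≤ s := by
    intro I hI
    exact (UniqueFactorizationMonoid.dvd_iff_normalizedFactors_le_normalizedFactors (hne I hI)
      hJ).1 (hS I hI)
  have h1 : S.card ≤ (s.toFinset.pi fun p => range (s.count p + 1)).card := by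
    refine Finset.card_le_card_of_injOn
      (fun I => fun p _ => (UniqueFactorizationMonoid.normalizedFactors I).count p) ?_ ?_
    · intro I hI
      rw [Finset.mem_coe, Finset.mem_pi]
      intro p _
      rw [Finset.mem_range]
      exact Nat.lt_succ_of_le (Multiset.count_le_of_le p (hle I hI))
    · intro I hI I' hI' h
      have h2 : UniqueFactorizationMonoid.normalizedFactors I =
          UniqueFactorizationMonoid.normalizedFactors I' := by
        ext p
        by_cases hp : p ∈ s.toFinset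
        · exact congrFun (congrFun h p) hp
        · rw [Multiset.mem_toFinset] at hp
          rw [Multiset.count_eq_zero_of_notMem fun h3 => hp (Multiset.mem_of_le (hle I hI) h3),
            Multiset.count_eq_zero_of_notMem fun h3 => hp (Multiset.mem_of_le (hle I' hI') h3)]
      rw [← Ideal.prod_normalizedFactors_eq_self (hne I hI), h2,
        Ideal.prod_normalizedFactors_eq_self (hne I' hI')]
  rw [Finset.card_pi] at h1
  simpa using h1

theorem norm_eq {K : Type} [Field K] [NumberField K] (J : Ideal (𝓞 K)) (hJ : J ≠ ⊥)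
    [DecidableEq (Ideal (𝓞 K))] :
    Ideal.absNorm J = ∏ p ∈ (UniqueFactorizationMonoid.normalizedFactors J).toFinset,
      Ideal.absNorm p ^ (UniqueFactorizationMonoid.normalizedFactors J).count p := by
  have h1 := Ideal.prod_normalizedFactors_eq_self hJ
  conv_lhs => rw [← h1]
  rw [map_multiset_prod, Finset.prod_multiset_map_count]

theorem d1 : S_D1 := by
  classical
  intro K _ _ η hη
  set B₀ : ℕ := ⌈(2 : ℝ) ^ (1 / η)⌉₊ with hB₀
  have hfin : {I : Ideal (𝓞 K) | Ideal.absNorm I ≤ B₀}.Finite :=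
    Ideal.finite_setOfPred_absNorm_le B₀
  set P₀ : Finset (Ideal (𝓞 K)) := hfin.toFinset with hP₀
  set δ : ℝ := (2 : ℝ) ^ η - 1 with hδ
  have hδ0 : 0 < δ := by
    have : (1 : ℝ) < (2 : ℝ) ^ η := Real.one_lt_rpow one_lt_two hη
    linarith
  set C₁ : ℝ := 1 + 1 / δ with hC₁
  have hC₁1 : 1 ≤ C₁ := by
    have : 0 < 1 / δ := by positivity
    linarith
  refine ⟨C₁ ^ P₀.card, one_le_pow₀ hC₁1, fun J hJ S hS => ?_⟩
  set s := UniqueFactorizationMonoid.normalizedFactors J with hs
  have hlocal : ∀ p ∈ s.toFinset, ((s.count p + 1 : ℕ) : ℝ) ≤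
      (if p ∈ P₀ then C₁ else 1) * ((Ideal.absNorm p ^ s.count p : ℕ) : ℝ) ^ η := by
    intro p hp
    rw [Multiset.mem_toFinset] at hp
    have hprime := UniqueFactorizationMonoid.prime_of_normalized_factor p hp
    have hN2 : 2 ≤ Ideal.absNorm p := by
      have h1 : Ideal.absNorm p ≠ 0 := by
        rw [Ne, Ideal.absNorm_eq_zero_iff]
        exact hprime.ne_zero
      have h2 : Ideal.absNorm p ≠ 1 := by
        rw [Ne, Ideal.absNorm_eq_one_iff]
        intro h3
        exact hprime.not_isUnit (Ideal.isUnit_iff.2 h3)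
      omega
    have hN2' : (2 : ℝ) ≤ (Ideal.absNorm p : ℝ) := by exact_mod_cast hN2
    have e1 : ((Ideal.absNorm p ^ s.count p : ℕ) : ℝ) ^ η =
        ((Ideal.absNorm p : ℝ) ^ η) ^ s.count p := by
      push_cast
      rw [← Real.rpow_natCast, ← Real.rpow_mul (by positivity), ← Real.rpow_natCast,
        ← Real.rpow_mul (by positivity), mul_comm]
    rw [e1]
    set e := s.count p with he
    by_cases hp0 : p ∈ P₀
    · rw [if_pos hp0]
      have h1 : (1 + δ) ^ e ≤ ((Ideal.absNorm p : ℝ) ^ η) ^ e := by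
        apply pow_le_pow_left₀ (by linarith)
        have : (2 : ℝ) ^ η ≤ (Ideal.absNorm p : ℝ) ^ η :=
          Real.rpow_le_rpow (by norm_num) hN2' hη.le
        linarith
      have h2 : 1 + (e : ℝ) * δ ≤ (1 + δ) ^ e := one_add_mul_le_pow (by linarith) e
      have h3 : ((e + 1 : ℕ) : ℝ) ≤ C₁ * (1 + (e : ℝ) * δ) := by
        have h4 : C₁ * (1 + (e : ℝ) * δ) = 1 + (e : ℝ) * δ + 1 / δ + e := by
          rw [hC₁]
          field_simp
          ring
        rw [h4]
        push_cast
        have h5 : 0 ≤ (e : ℝ) * δ := by positivity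
        have h6 : 0 < 1 / δ := by positivity
        linarith
      refine h3.trans (mul_le_mul_of_nonneg_left (h2.trans h1) (by linarith))
    · rw [if_neg hp0, one_mul]
      have h1 : B₀ < Ideal.absNorm p := by
        rw [hP₀, Set.Finite.mem_toFinset] at hp0
        exact not_le.1 hp0
      have h2 : (2 : ℝ) ^ (1 / η) ≤ (Ideal.absNorm p : ℝ) := by
        refine (Nat.le_ceil _).trans ?_
        rw [← hB₀]
        exact_mod_cast h1.le
      have h3 : (2 : ℝ) ≤ (Ideal.absNorm p : ℝ) ^ η := by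
        have h4 := Real.rpow_le_rpow (by positivity) h2 hη.le
        rw [← Real.rpow_mul (by norm_num), one_div, inv_mul_cancel₀ hη.ne', Real.rpow_one] at h4
        exact h4
      have h4 : (2 : ℝ) ^ e ≤ ((Ideal.absNorm p : ℝ) ^ η) ^ e :=
        pow_le_pow_left₀ (by norm_num) h3 e
      refine le_trans ?_ h4
      have h5 : e + 1 ≤ 2 ^ e := Nat.succ_le_of_lt Nat.lt_two_pow_self
      exact_mod_cast h5
  have h1 : (S.card : ℝ) ≤ ∏ p ∈ s.toFinset, ((s.count p + 1 : ℕ) : ℝ) := by
    rw [← Nat.cast_prod]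
    exact_mod_cast card_div J hJ S hS
  have h2 : ∏ p ∈ s.toFinset, ((s.count p + 1 : ℕ) : ℝ) ≤
      ∏ p ∈ s.toFinset, ((if p ∈ P₀ then C₁ else 1) *
        ((Ideal.absNorm p ^ s.count p : ℕ) : ℝ) ^ η) :=
    Finset.prod_le_prod (fun p _ => Nat.cast_nonneg _) hlocal
  rw [Finset.prod_mul_distrib] at h2
  have h3 : ∏ p ∈ s.toFinset, (if p ∈ P₀ then C₁ else 1) ≤ C₁ ^ P₀.card := by
    rw [Finset.prod_ite, Finset.prod_const_one, mul_one, Finset.prod_const]
    apply pow_le_pow_right₀ hC₁1
    apply Finset.card_le_card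
    intro p hp
    exact (Finset.mem_filter.1 hp).2
  have h4 : ∏ p ∈ s.toFinset, ((Ideal.absNorm p ^ s.count p : ℕ) : ℝ) ^ η =
      (Ideal.absNorm J : ℝ) ^ η := by
    rw [Real.finsetProd_rpow _ _ (fun p _ => Nat.cast_nonneg _), ← Nat.cast_prod, norm_eq J hJ]
  rw [h4] at h2
  refine h1.trans (h2.trans ?_)
  exact mul_le_mul_of_nonneg_right h3 (by positivity)

end Pool.Agent.H80.CP
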